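import Pool.Agent.H21.Ech.Per

/-!
# The relations of Gangl, Kaneko and Zagier from the double shuffle relations
-/

set_option autoImplicit false

namespace Pool.Agent.H21.GKZ

open Finset Pool.Agent.H21.Ech

theorem coeff_ext {N : ℕ} {u v : ℕ → ℚ} (S : Finset ℚ)
    (h : ∀ x : ℚ, x ∉ S → ∑ b ∈ range (N + 1), u b * x ^ (N - b) =
      ∑ b ∈ range (N + 1), v b * x ^ (N - b)) : ∀ b ≤ N, u b = v b := by
  set q : Polynomial ℚ := ∑ b ∈ range (N + 1), Polynomial.C (u b - v b) * Polynomial.X ^ (N - b)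
    with hq
  have hz : q = 0 := by
    apply Polynomial.eq_zero_of_infinite_isRoot
    refine Set.Infinite.mono ?_ (S.finite_toSet.infinite_compl)
    intro x hx
    have hx' : x ∉ S := fun h' => hx h'
    show q.eval x = 0
    rw [hq, Polynomial.eval_finsetSum]
    simp only [Polynomial.eval_mul, Polynomial.eval_C, Polynomial.eval_pow, Polynomial.eval_X,
      sub_mul, Finset.sum_sub_distrib]
    rw [h x hx', sub_self]
  intro b hb
  have h1 : q.coeff (N - b) = u b - v b := by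
    rw [hq, Polynomial.finsetSum_coeff, Finset.sum_eq_single b]
    · rw [Polynomial.coeff_C_mul, Polynomial.coeff_X_pow, if_pos rfl, mul_one]
    · intro c hc hcb
      rw [mem_range] at hc
      rw [Polynomial.coeff_C_mul, Polynomial.coeff_X_pow, if_neg (by omega), mul_zero]
    · intro h'
      exact absurd (mem_range.2 (by omega)) h'
  rw [hz, Polynomial.coeff_zero] at h1
  linarith

theorem sum_reflect' {M : Type*} [AddCommMonoid M] (N : ℕ) (f : ℕ → M) :
    ∑ j ∈ range (N + 1), f (N - j) = ∑ j ∈ range (N + 1), f j := by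
  refine Finset.sum_nbij' (fun j => N - j) (fun j => N - j) ?_ ?_ ?_ ?_ ?_
  · intro j hj; rw [mem_range] at hj ⊢; omega
  · intro j hj; rw [mem_range] at hj ⊢; omega
  · intro j hj; rw [mem_range] at hj; show N - (N - j) = j; omega
  · intro j hj; rw [mem_range] at hj; show N - (N - j) = j; omega
  · intro j _; rfl

theorem sum_even (n : ℕ) (f : ℕ → ℚ) (w : ℕ → ℚ) :
    ∑ j ∈ range (2 * n + 1), (if j % 2 = 0 then f (j / 2) else 0) * w j =
      ∑ i ∈ range (n + 1), f i * w (2 * i) := by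
  induction n with
  | zero => simp
  | succ n ih =>
    rw [show 2 * (n + 1) + 1 = (2 * n + 1) + 1 + 1 by ring, Finset.sum_range_succ,
      Finset.sum_range_succ, ih, Finset.sum_range_succ _ (n + 1)]
    rw [if_neg (by omega), if_pos (by omega), zero_mul, add_zero,
      show (2 * n + 1 + 1) / 2 = n + 1 by omega, show 2 * n + 1 + 1 = 2 * (n + 1) by ring]

/-- the polynomial `∑ p_i a^(2n-2i) b^(2i)` -/
def P (n : ℕ) (p : ℕ → ℚ) (a b : ℚ) : ℚ := ∑ i ∈ range (n + 1), p i * (a ^ (2 * (n - i)) * b ^ (2 * i))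

/-- the coefficients of `P(X + Y, Y)` -/
def g (n : ℕ) (p : ℕ → ℚ) (b : ℕ) : ℚ :=
  ∑ i ∈ range (n + 1), if 2 * i ≤ b then p i * ((2 * n - 2 * i).choose (b - 2 * i) : ℚ) else 0

theorem E_g (n : ℕ) (p : ℕ → ℚ) (a b : ℚ) :
    ∑ j ∈ range (2 * n + 1), g n p j * (a ^ (2 * n - j) * b ^ j) = P n p (a + b) b := by
  unfold g P
  simp only [Finset.sum_mul]
  rw [Finset.sum_comm]
  refine Finset.sum_congr rfl fun i hi => ?_
  rw [mem_range] at hi
  rw [show 2 * n + 1 = 2 * i + (2 * n - 2 * i + 1) by omega, Finset.sum_range_add]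
  have h1 : ∑ j ∈ range (2 * i), (if 2 * i ≤ j then p i * ((2 * n - 2 * i).choose (j - 2 * i) : ℚ)
      else 0) * (a ^ (2 * n - j) * b ^ j) = 0 := by
    refine Finset.sum_eq_zero fun j hj => ?_
    rw [mem_range] at hj
    rw [if_neg (by omega), zero_mul]
  rw [h1, zero_add, show 2 * (n - i) = 2 * n - 2 * i by omega, add_comm a b, add_pow,
    Finset.sum_mul, Finset.mul_sum]
  refine Finset.sum_congr rfl fun l hl => ?_
  rw [mem_range] at hl
  rw [if_pos (by omega), show 2 * i + l - 2 * i = l by omega,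
    show 2 * n - (2 * i + l) = 2 * n - 2 * i - l by omega, pow_add]
  ring

theorem P_neg_left (n : ℕ) (p : ℕ → ℚ) (a b : ℚ) : P n p (-a) b = P n p a b := by
  unfold P
  refine Finset.sum_congr rfl fun i _ => ?_
  rw [Even.neg_pow ⟨n - i, by ring⟩]

theorem P_neg_right (n : ℕ) (p : ℕ → ℚ) (a b : ℚ) : P n p a (-b) = P n p a b := by
  unfold P
  refine Finset.sum_congr rfl fun i _ => ?_
  rw [Even.neg_pow (⟨i, by ring⟩ : Even (2 * i)) b]

theorem P_swap {n : ℕ} {p : ℕ → ℚ} (hanti : ∀ i ≤ n, p (n - i) = - p i) (a b : ℚ) :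
    P n p b a = - P n p a b := by
  unfold P
  rw [← sum_reflect' n, ← Finset.sum_neg_distrib]
  refine Finset.sum_congr rfl fun i hi => ?_
  rw [mem_range] at hi
  rw [hanti i (by omega), show n - (n - i) = i by omega]
  ring

/-- the coefficients of `2 P(X - Y, Y) - P(X, Y)` -/
def F (n : ℕ) (p : ℕ → ℚ) (b : ℕ) : ℚ :=
  2 * ((-1) ^ b * g n p b) - (if b % 2 = 0 then p (b / 2) else 0)

theorem E_g_neg (n : ℕ) (p : ℕ → ℚ) (a b : ℚ) :
    ∑ j ∈ range (2 * n + 1), ((-1) ^ j * g n p j) * (a ^ (2 * n - j) * b ^ j) =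
      P n p (a - b) b := by
  have h := E_g n p a (-b)
  rw [P_neg_right, ← sub_eq_add_neg] at h
  rw [← h]
  refine Finset.sum_congr rfl fun j _ => ?_
  rw [neg_pow b]
  ring

theorem E_p (n : ℕ) (p : ℕ → ℚ) (a b : ℚ) :
    ∑ j ∈ range (2 * n + 1), (if j % 2 = 0 then p (j / 2) else 0) * (a ^ (2 * n - j) * b ^ j) =
      P n p a b := by
  rw [sum_even n p fun j => a ^ (2 * n - j) * b ^ j]
  unfold P
  refine Finset.sum_congr rfl fun i _ => ?_
  rw [show 2 * n - 2 * i = 2 * (n - i) by omega]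

theorem E_F (n : ℕ) (p : ℕ → ℚ) (a b : ℚ) :
    ∑ j ∈ range (2 * n + 1), F n p j * (a ^ (2 * n - j) * b ^ j) =
      2 * P n p (a - b) b - P n p a b := by
  rw [← E_g_neg, ← E_p n p a b, Finset.mul_sum, ← Finset.sum_sub_distrib]
  refine Finset.sum_congr rfl fun j _ => ?_
  unfold F
  ring

/-- the assumptions on an even period polynomial -/
structure Per (n : ℕ) (p : ℕ → ℚ) : Prop where
  anti : ∀ i ≤ n, p (n - i) = - p i
  rel : ∀ x : ℚ, x ≠ 0 → x ≠ -1 → P n p (x + 1) 1 - P n p (x + 1) x - P n p x 1 = 0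

theorem F_symm {n : ℕ} {p : ℕ → ℚ} (h : Per n p) : ∀ b ≤ 2 * n, F n p b = F n p (2 * n - b) := by
  refine coeff_ext {0, 1} fun x hx => ?_
  have hx0 : x ≠ 0 := fun h' => hx (by simp [h'])
  have hx1 : x ≠ 1 := fun h' => hx (by simp [h'])
  have h1 := E_F n p x 1
  have h2 := E_F n p 1 x
  rw [← sum_reflect' (2 * n)] at h2
  have h3 := h.rel (x - 1) (sub_ne_zero.2 hx1) (fun h' => hx0 (by linarith))
  have e1 : ∑ b ∈ range (2 * n + 1), F n p b * x ^ (2 * n - b) =
      ∑ j ∈ range (2 * n + 1), F n p j * (x ^ (2 * n - j) * 1 ^ j) :=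
    Finset.sum_congr rfl fun j _ => by rw [one_pow, mul_one]
  have e2 : ∑ b ∈ range (2 * n + 1), F n p (2 * n - b) * x ^ (2 * n - b) =
      ∑ j ∈ range (2 * n + 1), F n p (2 * n - j) * (1 ^ (2 * n - (2 * n - j)) * x ^ (2 * n - j)) :=
    Finset.sum_congr rfl fun j _ => by rw [one_pow, one_mul]
  rw [e1, e2, h1, h2]
  rw [sub_add_cancel] at h3
  have h4 : P n p (1 - x) x = P n p (x - 1) x := by
    rw [← P_neg_left, neg_sub]
  have h5 := P_swap h.anti (x - 1) x
  have h6 := P_swap h.anti x 1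
  rw [h4, h6]
  linarith

theorem g_odd {n : ℕ} {p : ℕ → ℚ} (h : Per n p) :
    ∀ b ≤ 2 * n, g n p b - g n p (2 * n - b) = (if b % 2 = 0 then p (b / 2) else 0) := by
  refine coeff_ext {0, -1} fun x hx => ?_
  have hx0 : x ≠ 0 := fun h' => hx (by simp [h'])
  have hx1 : x ≠ -1 := fun h' => hx (by simp [h'])
  have h1 := E_g n p x 1
  have h2 := E_g n p 1 x
  rw [← sum_reflect' (2 * n)] at h2
  have h3 := h.rel x hx0 hx1
  have h4 := E_p n p x 1
  have e1 : ∑ b ∈ range (2 * n + 1), (g n p b - g n p (2 * n - b)) * x ^ (2 * n - b) =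
      ∑ j ∈ range (2 * n + 1), g n p j * (x ^ (2 * n - j) * 1 ^ j) -
      ∑ j ∈ range (2 * n + 1), g n p (2 * n - j) * (1 ^ (2 * n - (2 * n - j)) * x ^ (2 * n - j)) := by
    rw [← Finset.sum_sub_distrib]
    exact Finset.sum_congr rfl fun j _ => by rw [one_pow, one_pow]; ring
  have e2 : ∑ b ∈ range (2 * n + 1), (if b % 2 = 0 then p (b / 2) else 0) * x ^ (2 * n - b) =
      ∑ j ∈ range (2 * n + 1), (if j % 2 = 0 then p (j / 2) else 0) * (x ^ (2 * n - j) * 1 ^ j) :=
    Finset.sum_congr rfl fun j _ => by rw [one_pow, mul_one]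
  rw [e1, e2, h1, h2, h4, add_comm 1 x]
  linarith

/-- the coefficients of `F(X, Y) - F(X, X + Y)` -/
def U (n : ℕ) (p : ℕ → ℚ) (j : ℕ) : ℚ :=
  F n p j - ∑ b ∈ range (2 * n + 1), F n p b * (b.choose j : ℚ)

theorem E_U (n : ℕ) (p : ℕ → ℚ) (x : ℚ) :
    ∑ j ∈ range (2 * n + 1), U n p j * x ^ (2 * n - j) =
      2 * P n p (x - 1) 1 - P n p x 1 - (2 * P n p (-1) (x + 1) - P n p x (x + 1)) := by
  have h1 := E_F n p x 1
  have h2 := E_F n p x (x + 1)
  rw [show x - (x + 1) = -1 by ring] at h2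
  rw [← h1, ← h2]
  have e : ∀ b ∈ range (2 * n + 1), F n p b * (x ^ (2 * n - b) * (x + 1) ^ b) =
      ∑ j ∈ range (2 * n + 1), F n p b * (b.choose j : ℚ) * x ^ (2 * n - j) := by
    intro b hb
    rw [mem_range] at hb
    have e4 : ∑ j ∈ range (2 * n + 1), F n p b * (b.choose j : ℚ) * x ^ (2 * n - j) =
        ∑ j ∈ range (b + 1), F n p b * (b.choose j : ℚ) * x ^ (2 * n - j) := by
      symm
      apply Finset.sum_subset
      · intro j hj
        rw [mem_range] at hj ⊢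
        omega
      · intro j _ hj
        rw [mem_range, not_lt] at hj
        rw [Nat.choose_eq_zero_of_lt (by omega)]
        simp
    rw [e4, add_comm x 1, add_pow, Finset.mul_sum, Finset.mul_sum]
    refine Finset.sum_congr rfl fun j hj => ?_
    rw [mem_range] at hj
    rw [one_pow, show 2 * n - j = (2 * n - b) + (b - j) by omega, pow_add]
    ring
  rw [Finset.sum_congr rfl e, Finset.sum_comm, ← Finset.sum_sub_distrib]
  refine Finset.sum_congr rfl fun j _ => ?_
  rw [← Finset.sum_mul, one_pow, mul_one]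
  unfold U
  ring

theorem U_eq {n : ℕ} {p : ℕ → ℚ} (h : Per n p) :
    ∀ b ≤ 2 * n, U n p b = (1 + 2 * (-1) ^ b) * g n p b := by
  refine coeff_ext {0, -1} fun x hx => ?_
  have hx0 : x ≠ 0 := fun h' => hx (by simp [h'])
  have hx1 : x ≠ -1 := fun h' => hx (by simp [h'])
  rw [E_U]
  have h1 := E_g n p x 1
  have h2 := E_g_neg n p x 1
  have e1 : ∑ b ∈ range (2 * n + 1), (1 + 2 * (-1) ^ b) * g n p b * x ^ (2 * n - b) =
      ∑ j ∈ range (2 * n + 1), g n p j * (x ^ (2 * n - j) * 1 ^ j) +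
      2 * ∑ j ∈ range (2 * n + 1), ((-1) ^ j * g n p j) * (x ^ (2 * n - j) * 1 ^ j) := by
    rw [Finset.mul_sum, ← Finset.sum_add_distrib]
    exact Finset.sum_congr rfl fun j _ => by rw [one_pow]; ring
  rw [e1, h1, h2]
  have h3 := h.rel x hx0 hx1
  have h4 : P n p (-1) (x + 1) = - P n p (x + 1) 1 := by
    rw [P_neg_left, P_swap h.anti (x + 1) 1]
  have h5 := P_swap h.anti (x + 1) x
  rw [h4, h5]
  linarith

end Pool.Agent.H21.GKZ
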