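import Mathlib
import Pool.Agent.H21.Ech.Per

/-!
# The dimension of the space of cusp forms of level one
-/

set_option autoImplicit false

namespace Pool.Agent.H21.GKZ

open scoped MatrixGroups ModularForm

open Pool.Agent.H21.Ech

theorem gamma_one : ((CongruenceSubgroup.Gamma 1 : Subgroup SL(2, ℤ)) : Subgroup (GL (Fin 2) ℝ)) =
    𝒮ℒ := by
  rw [CongruenceSubgroup.Gamma_one_top, MonoidHom.range_eq_map]

theorem rank_congr {G H : Subgroup (GL (Fin 2) ℝ)} [G.HasDetOne] [H.HasDetOne] (h : G = H) (k : ℤ) :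
    Module.rank ℂ (CuspForm G k) = Module.rank ℂ (CuspForm H k) := by
  subst h
  rfl

theorem finrank_cusp (h : ℕ) :
    Module.finrank ℂ (CuspForm (CongruenceSubgroup.Gamma 1) (2 * ((h + 2 : ℕ) : ℤ))) + 1 = mu h := by
  have h1 : Module.rank ℂ (CuspForm (CongruenceSubgroup.Gamma 1) (2 * ((h + 2 : ℕ) : ℤ))) =
      Module.rank ℂ (CuspForm 𝒮ℒ ((2 * (h + 2) : ℕ) : ℤ)) := by
    rw [rank_congr gamma_one, show (2 * ((h + 2 : ℕ) : ℤ)) = ((2 * (h + 2) : ℕ) : ℤ) by push_cast; ring]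
  have h2 := ModularForm.dimension_level_one (2 * (h + 2)) ⟨h + 2, by ring⟩
  rw [ModularForm.rank_eq_one_add_rank_cuspForm (by omega) ⟨h + 2, by ring⟩] at h2
  have h3 : Module.rank ℂ (CuspForm 𝒮ℒ ((2 * (h + 2) : ℕ) : ℤ)) = ((mu h - 1 : ℕ) : Cardinal) := by
    have h4 : (if 2 * (h + 2) ≡ 2 [MOD 12] then ((2 * (h + 2) / 12 : ℕ) : Cardinal)
        else ((2 * (h + 2) / 12 : ℕ) : Cardinal) + 1) = 1 + ((mu h - 1 : ℕ) : Cardinal) := by
      have h5 : (if 2 * (h + 2) % 12 = 2 then 2 * (h + 2) / 12 else 2 * (h + 2) / 12 + 1) = 1 + (mu h - 1) := by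
        unfold mu
        split_ifs <;> omega
      have h6 : ((if 2 * (h + 2) % 12 = 2 then 2 * (h + 2) / 12 else 2 * (h + 2) / 12 + 1 : ℕ) : Cardinal) =
          ((1 + (mu h - 1) : ℕ) : Cardinal) := by rw [h5]
      rw [Nat.cast_add, Nat.cast_one] at h6
      rw [← h6]
      unfold Nat.ModEq
      norm_num
    have h7 := h2.trans (by simpa using h4)
    exact Cardinal.eq_of_add_eq_add_left h7 Cardinal.one_lt_aleph0
  rw [Module.finrank, h1, h3, Cardinal.toNat_natCast]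
  unfold mu
  omega

end Pool.Agent.H21.GKZ
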