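import Mathlib

/-!
# Double shuffle relations for double zeta values
-/

set_option autoImplicit false

namespace Pool.Agent.H21.GKZ

open Finset

/-- `ζ(a, b)` -/
noncomputable def DZ (a b : ℕ) : ℝ :=
  ∑' p : ℕ × ℕ, (1 : ℝ) / ((((p.1 + p.2 + 2 : ℕ) : ℝ) ^ a) * (((p.2 + 1 : ℕ) : ℝ) ^ b))

/-- `ζ(k)` -/
noncomputable def SZ (k : ℕ) : ℝ := ∑' n : ℕ, (1 : ℝ) / ((n + 1 : ℕ) : ℝ) ^ k

/-! ### partial fractions -/

/-- one half of the partial fraction expansion -/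
noncomputable def T (u v : ℝ) (A B : ℕ) : ℝ :=
  ∑ j ∈ range (A + B + 1), ((A + B - j).choose A : ℝ) * (u ^ (A + B + 1 - j) * v ^ (j + 1))

theorem T_succ (u v : ℝ) (A B : ℕ) : T u v (A + 1) (B + 1) = u * (T u v A (B + 1) + T u v (A + 1) B) := by
  unfold T
  rw [show A + 1 + (B + 1) + 1 = (A + B + 2) + 1 by ring, Finset.sum_range_succ,
    Nat.choose_eq_zero_of_lt (show A + 1 + (B + 1) - (A + B + 2) < A + 1 by omega),
    show A + (B + 1) + 1 = A + B + 2 by ring, show A + 1 + B + 1 = A + B + 2 by ring,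
    ← Finset.sum_add_distrib, Finset.mul_sum]
  simp only [Nat.cast_zero, zero_mul, add_zero]
  refine Finset.sum_congr rfl fun j hj => ?_
  rw [mem_range] at hj
  have e1 : A + 1 + (B + 1) - j = (A + B + 1 - j) + 1 := by omega
  have e2 : A + 1 + B - j = A + B + 1 - j := by omega
  have e3 : A + (B + 1) - j = A + B + 1 - j := by omega
  have e4 : A + B + 2 + 1 - j = (A + B + 2 - j) + 1 := by omega
  rw [e1, e2, e3, e4, Nat.choose_succ_succ, pow_succ]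
  push_cast
  ring

theorem T_zero_succ (u v : ℝ) (B : ℕ) : T u v 0 (B + 1) = u * T u v 0 B + u * v ^ (B + 2) := by
  unfold T
  rw [Finset.sum_range_succ, Finset.mul_sum]
  congr 1
  · refine Finset.sum_congr (by rw [show 0 + (B + 1) = 0 + B + 1 by ring]) fun j hj => ?_
    rw [mem_range] at hj
    rw [show 0 + (B + 1) + 1 - j = (0 + B + 1 - j) + 1 by omega, pow_succ]
    simp
    ring
  · simp

theorem T_zero_right (u v : ℝ) (A : ℕ) : T u v A 0 = u ^ (A + 1) * v := by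
  unfold T
  rw [Finset.sum_eq_single 0]
  · simp
  · intro j hj hj0
    rw [mem_range] at hj
    rw [Nat.choose_eq_zero_of_lt (by omega)]
    simp
  · intro h
    exact absurd (mem_range.2 (by omega)) h

theorem partial_fractions {u v w : ℝ} (h : v * w = u * (v + w)) : ∀ (N A B : ℕ), A + B = N →
    T u v A B + T u w B A = w ^ (A + 1) * v ^ (B + 1) := by
  intro N
  induction N with
  | zero =>
    intro A B hAB
    obtain rfl : A = 0 := by omega
    obtain rfl : B = 0 := by omega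
    rw [T_zero_right, T_zero_right]
    simp
    linarith
  | succ N ih =>
    intro A B hAB
    rcases A with _ | A
    · rcases B with _ | B
      · omega
      · have h1 := ih 0 B (by omega)
        rw [T_zero_right] at h1
        rw [T_zero_succ, T_zero_right, show B + 1 + 1 = (B + 1) + 1 by rfl, pow_succ u (B + 1)]
        have h2 : w ^ (0 + 1) * v ^ (B + 1 + 1) = v ^ (B + 1) * (v * w) := by ring
        rw [h2, h]
        linear_combination u * h1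
    · rcases B with _ | B
      · have h1 := ih A 0 (by omega)
        rw [T_zero_right] at h1
        rw [T_zero_succ, T_zero_right, pow_succ u (A + 1)]
        have h2 : w ^ (A + 1 + 1) * v ^ (0 + 1) = w ^ (A + 1) * (v * w) := by ring
        rw [h2, h]
        linear_combination u * h1
      · have h1 := ih A (B + 1) (by omega)
        have h2 := ih (A + 1) B (by omega)
        rw [T_succ, T_succ]
        have h3 : w ^ (A + 1 + 1) * v ^ (B + 1 + 1) = w ^ (A + 1) * v ^ (B + 1) * (v * w) := by ring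
        rw [h3, h]
        linear_combination u * h1 + u * h2

/-! ### summability -/

theorem summable_aux : Summable fun n : ℕ => (1 : ℝ) / (((n + 1 : ℕ) : ℝ) * √((n + 1 : ℕ) : ℝ)) := by
  have h := (Real.summable_one_div_nat_rpow (p := 3 / 2)).2 (by norm_num)
  have h1 := (summable_nat_add_iff 1).2 h
  refine h1.congr fun n => ?_
  have hp : (0 : ℝ) < ((n + 1 : ℕ) : ℝ) := by positivity
  rw [show (3 / 2 : ℝ) = 1 + 1 / 2 by norm_num, Real.rpow_add hp, Real.rpow_one, Real.sqrt_eq_rpow]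

theorem summable_aux2 : Summable fun p : ℕ × ℕ =>
    (1 : ℝ) / (((p.1 + 1 : ℕ) : ℝ) * √((p.1 + 1 : ℕ) : ℝ)) *
      (1 / (((p.2 + 1 : ℕ) : ℝ) * √((p.2 + 1 : ℕ) : ℝ))) :=
  summable_aux.mul_of_nonneg summable_aux (fun n => by positivity) (fun n => by positivity)

theorem sqrt_le {M N : ℝ} (hM : 1 ≤ M) (hN : 1 ≤ N) : √M * √N ≤ M + N := by
  have h1 := Real.sq_sqrt (show 0 ≤ M by linarith)
  have h2 := Real.sq_sqrt (show 0 ≤ N by linarith)
  have h3 := Real.sqrt_nonneg M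
  have h4 := Real.sqrt_nonneg N
  nlinarith [sq_nonneg (√M - √N)]

theorem summable_dz {a b : ℕ} (ha : 2 ≤ a) (hb : 1 ≤ b) : Summable fun p : ℕ × ℕ =>
    (1 : ℝ) / ((((p.1 + p.2 + 2 : ℕ) : ℝ) ^ a) * (((p.2 + 1 : ℕ) : ℝ) ^ b)) := by
  refine Summable.of_nonneg_of_le (fun p => by positivity) (fun p => ?_) summable_aux2
  set M : ℝ := ((p.1 + 1 : ℕ) : ℝ) with hM
  set N : ℝ := ((p.2 + 1 : ℕ) : ℝ) with hN
  have hM1 : 1 ≤ M := by rw [hM]; push_cast; linarith [(Nat.cast_nonneg p.1 : (0 : ℝ) ≤ p.1)]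
  have hN1 : 1 ≤ N := by rw [hN]; push_cast; linarith [(Nat.cast_nonneg p.2 : (0 : ℝ) ≤ p.2)]
  have e : ((p.1 + p.2 + 2 : ℕ) : ℝ) = M + N := by rw [hM, hN]; push_cast; ring
  rw [e, one_div_mul_one_div]
  have hs := sqrt_le hM1 hN1
  have h0 : 0 ≤ √M * √N := by positivity
  refine one_div_le_one_div_of_le (by positivity) ?_
  have h1 : (M + N) ^ 2 ≤ (M + N) ^ a := pow_le_pow_right₀ (by linarith) ha
  have h2 : N ≤ N ^ b := le_self_pow₀ hN1 (by omega)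
  calc M * √M * (N * √N) = (M * (√M * √N)) * N := by ring
    _ ≤ ((M + N) * (M + N)) * N := by gcongr; linarith
    _ = (M + N) ^ 2 * N := by ring
    _ ≤ (M + N) ^ a * N ^ b := by gcongr

theorem summable_sz {k : ℕ} (hk : 2 ≤ k) : Summable fun n : ℕ => (1 : ℝ) / ((n + 1 : ℕ) : ℝ) ^ k :=
  (summable_nat_add_iff 1).2 (Real.summable_one_div_nat_pow.2 (by omega))

theorem hasSum_prod {r s : ℕ} (hr : 2 ≤ r) (hs : 2 ≤ s) : HasSum (fun p : ℕ × ℕ =>
    (1 : ℝ) / ((p.1 + 1 : ℕ) : ℝ) ^ r * (1 / ((p.2 + 1 : ℕ) : ℝ) ^ s)) (SZ r * SZ s) :=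
  (summable_sz hr).hasSum.mul (summable_sz hs).hasSum
    ((summable_sz hr).mul_of_nonneg (summable_sz hs) (fun n => by positivity) (fun n => by positivity))

/-! ### the stuffle product -/

theorem hasSum_of_three {f : ℕ × ℕ → ℝ} {A B C : ℝ} (hA : HasSum (fun p : ℕ × ℕ => f (p.1 + p.2 + 1, p.2)) A)
    (hB : HasSum (fun p : ℕ × ℕ => f (p.2, p.1 + p.2 + 1)) B) (hC : HasSum (fun n => f (n, n)) C) :
    HasSum f (A + B + C) := by
  have i1 : Function.Injective (fun p : ℕ × ℕ => (p.1 + p.2 + 1, p.2)) := by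
    rintro ⟨a, b⟩ ⟨c, d⟩ h
    simp only [Prod.mk.injEq] at h
    ext <;> simp only <;> omega
  have i2 : Function.Injective (fun p : ℕ × ℕ => (p.2, p.1 + p.2 + 1)) := by
    rintro ⟨a, b⟩ ⟨c, d⟩ h
    simp only [Prod.mk.injEq] at h
    ext <;> simp only <;> omega
  have i3 : Function.Injective (fun n : ℕ => (n, n)) := by
    intro a b h
    exact (Prod.mk.injEq _ _ _ _ ▸ h).1
  have h1 := hasSum_subtype_iff_indicator.1 ((i1.hasSum_range_iff (f := f)).2 hA)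
  have h2 := hasSum_subtype_iff_indicator.1 ((i2.hasSum_range_iff (f := f)).2 hB)
  have h3 := hasSum_subtype_iff_indicator.1 ((i3.hasSum_range_iff (f := f)).2 hC)
  have h4 := (h1.add h2).add h3
  convert h4 using 1
  ext ⟨a, b⟩
  rcases lt_trichotomy a b with hab | hab | hab
  · rw [Set.indicator_of_notMem (by rintro ⟨⟨c, d⟩, h⟩; simp only [Prod.mk.injEq] at h; omega),
      Set.indicator_of_mem (show (a, b) ∈ Set.range fun p : ℕ × ℕ => (p.2, p.1 + p.2 + 1) from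
        ⟨(b - a - 1, a), Prod.ext rfl (show b - a - 1 + a + 1 = b by omega)⟩),
      Set.indicator_of_notMem (by rintro ⟨c, h⟩; simp only [Prod.mk.injEq] at h; omega)]
    ring
  · rw [Set.indicator_of_notMem (by rintro ⟨⟨c, d⟩, h⟩; simp only [Prod.mk.injEq] at h; omega),
      Set.indicator_of_notMem (by rintro ⟨⟨c, d⟩, h⟩; simp only [Prod.mk.injEq] at h; omega),
      Set.indicator_of_mem (show (a, b) ∈ Set.range fun n : ℕ => (n, n) from
        ⟨a, Prod.ext rfl (show a = b by omega)⟩)]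
    ring
  · rw [Set.indicator_of_mem (show (a, b) ∈ Set.range fun p : ℕ × ℕ => (p.1 + p.2 + 1, p.2) from
        ⟨(a - b - 1, b), Prod.ext (show a - b - 1 + b + 1 = a by omega) rfl⟩),
      Set.indicator_of_notMem (by rintro ⟨⟨c, d⟩, h⟩; simp only [Prod.mk.injEq] at h; omega),
      Set.indicator_of_notMem (by rintro ⟨c, h⟩; simp only [Prod.mk.injEq] at h; omega)]
    ring

theorem stuffle {r s : ℕ} (hr : 2 ≤ r) (hs : 2 ≤ s) : SZ r * SZ s = DZ r s + DZ s r + SZ (r + s) := by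
  refine (hasSum_prod hr hs).unique ?_
  refine hasSum_of_three ?_ ?_ ?_
  · have h : HasSum _ (DZ r s) := (summable_dz hr (by omega : 1 ≤ s)).hasSum
    convert h using 1
    ext p
    rw [one_div_mul_one_div, show p.1 + p.2 + 1 + 1 = p.1 + p.2 + 2 by ring]
  · have h : HasSum _ (DZ s r) := (summable_dz hs (by omega : 1 ≤ r)).hasSum
    convert h using 1
    ext p
    rw [one_div_mul_one_div, show p.1 + p.2 + 1 + 1 = p.1 + p.2 + 2 by ring, mul_comm]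
  · have h : HasSum _ (SZ (r + s)) := (summable_sz (show 2 ≤ r + s by omega)).hasSum
    convert h using 1
    ext p
    rw [one_div_mul_one_div, pow_add]

/-! ### the shuffle product -/

theorem DZ_swap (a b : ℕ) : DZ a b =
    ∑' p : ℕ × ℕ, (1 : ℝ) / ((((p.1 + p.2 + 2 : ℕ) : ℝ) ^ a) * (((p.1 + 1 : ℕ) : ℝ) ^ b)) := by
  unfold DZ
  rw [← (Equiv.prodComm ℕ ℕ).tsum_eq]
  refine tsum_congr fun p => ?_
  simp only [Equiv.prodComm_apply, Prod.fst_swap, Prod.snd_swap]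
  rw [show p.2 + p.1 + 2 = p.1 + p.2 + 2 by ring]

theorem hasSum_DZ {a b : ℕ} (ha : 2 ≤ a) (hb : 1 ≤ b) : HasSum (fun p : ℕ × ℕ =>
    (1 : ℝ) / ((((p.1 + p.2 + 2 : ℕ) : ℝ) ^ a) * (((p.2 + 1 : ℕ) : ℝ) ^ b))) (DZ a b) :=
  (summable_dz ha hb).hasSum

theorem hasSum_DZ_swap {a b : ℕ} (ha : 2 ≤ a) (hb : 1 ≤ b) : HasSum (fun p : ℕ × ℕ =>
    (1 : ℝ) / ((((p.1 + p.2 + 2 : ℕ) : ℝ) ^ a) * (((p.1 + 1 : ℕ) : ℝ) ^ b))) (DZ a b) := by
  have h := (Equiv.prodComm ℕ ℕ).hasSum_iff.2 (hasSum_DZ ha hb)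
  convert h using 1
  ext p
  simp only [Function.comp, Equiv.prodComm_apply, Prod.fst_swap, Prod.snd_swap]
  rw [show p.2 + p.1 + 2 = p.1 + p.2 + 2 by ring]

theorem pf_point (A B : ℕ) (p : ℕ × ℕ) :
    (1 : ℝ) / ((p.1 + 1 : ℕ) : ℝ) ^ (A + 1) * (1 / ((p.2 + 1 : ℕ) : ℝ) ^ (B + 1)) =
    ∑ j ∈ range (A + B + 1),
      (((A + B - j).choose A : ℝ) * (1 / ((((p.1 + p.2 + 2 : ℕ) : ℝ) ^ (A + B + 1 - j)) * (((p.2 + 1 : ℕ) : ℝ) ^ (j + 1)))) +
      ((A + B - j).choose B : ℝ) * (1 / ((((p.1 + p.2 + 2 : ℕ) : ℝ) ^ (A + B + 1 - j)) * (((p.1 + 1 : ℕ) : ℝ) ^ (j + 1))))) := by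
  have hx : ((p.1 + 1 : ℕ) : ℝ) ≠ 0 := by positivity
  have hy : ((p.2 + 1 : ℕ) : ℝ) ≠ 0 := by positivity
  have hz : ((p.1 + p.2 + 2 : ℕ) : ℝ) ≠ 0 := by positivity
  have hrel : (1 / ((p.2 + 1 : ℕ) : ℝ)) * (1 / ((p.1 + 1 : ℕ) : ℝ)) =
      (1 / ((p.1 + p.2 + 2 : ℕ) : ℝ)) * (1 / ((p.2 + 1 : ℕ) : ℝ) + 1 / ((p.1 + 1 : ℕ) : ℝ)) := by
    field_simp
    push_cast
    ring
  have h := partial_fractions hrel (A + B) A B rfl
  rw [one_div_pow, one_div_pow] at h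
  rw [← h, Finset.sum_add_distrib]
  congr 1
  · unfold T
    refine Finset.sum_congr rfl fun j _ => ?_
    rw [one_div_pow, one_div_pow, one_div_mul_one_div]
  · unfold T
    rw [show B + A = A + B by ring]
    refine Finset.sum_congr rfl fun j _ => ?_
    rw [one_div_pow, one_div_pow, one_div_mul_one_div]

theorem shuffle {A B : ℕ} (hA : 1 ≤ A) (hB : 1 ≤ B) : SZ (A + 1) * SZ (B + 1) =
    ∑ j ∈ range (A + B), (((A + B - j).choose A : ℝ) + ((A + B - j).choose B : ℝ)) *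
      DZ (A + B + 1 - j) (j + 1) := by
  refine (hasSum_prod (show 2 ≤ A + 1 by omega) (show 2 ≤ B + 1 by omega)).unique ?_
  have h1 : ∀ j ∈ range (A + B), HasSum (fun p : ℕ × ℕ =>
      (((A + B - j).choose A : ℝ) * (1 / ((((p.1 + p.2 + 2 : ℕ) : ℝ) ^ (A + B + 1 - j)) * (((p.2 + 1 : ℕ) : ℝ) ^ (j + 1)))) +
      ((A + B - j).choose B : ℝ) * (1 / ((((p.1 + p.2 + 2 : ℕ) : ℝ) ^ (A + B + 1 - j)) * (((p.1 + 1 : ℕ) : ℝ) ^ (j + 1))))))
      ((((A + B - j).choose A : ℝ) + ((A + B - j).choose B : ℝ)) * DZ (A + B + 1 - j) (j + 1)) := by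
    intro j hj
    rw [mem_range] at hj
    rw [add_mul]
    exact ((hasSum_DZ (by omega) (by omega)).mul_left _).add
      ((hasSum_DZ_swap (by omega) (by omega)).mul_left _)
  have h2 := hasSum_sum h1
  convert h2 using 1
  ext p
  rw [pf_point, Finset.sum_range_succ, Nat.choose_eq_zero_of_lt (show A + B - (A + B) < A by omega),
    Nat.choose_eq_zero_of_lt (show A + B - (A + B) < B by omega)]
  simp

/-! ### the sum formula -/

theorem tele_one (n : ℕ) : HasSum (fun m : ℕ => (1 : ℝ) / ((m + n + 1 : ℕ) : ℝ) - 1 / ((m + n + 2 : ℕ) : ℝ))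
    (1 / ((n + 1 : ℕ) : ℝ)) := by
  rw [hasSum_iff_tendsto_nat_of_nonneg]
  · have h : ∀ N : ℕ, ∑ m ∈ range N, ((1 : ℝ) / ((m + n + 1 : ℕ) : ℝ) - 1 / ((m + n + 2 : ℕ) : ℝ)) =
        1 / ((n + 1 : ℕ) : ℝ) - 1 / ((N + n + 1 : ℕ) : ℝ) := by
      intro N
      induction N with
      | zero => simp
      | succ N ih =>
        rw [Finset.sum_range_succ, ih, show N + 1 + n + 1 = N + n + 2 by ring]
        ring
    simp only [h]
    have h2 : Filter.Tendsto (fun N : ℕ => (1 : ℝ) / ((N + n + 1 : ℕ) : ℝ)) Filter.atTop (nhds 0) := by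
      have h3 := (Filter.tendsto_add_atTop_iff_nat (n + 1)).2
        (tendsto_one_div_atTop_nhds_zero_nat (𝕜 := ℝ))
      refine h3.congr fun N => ?_
      rw [show N + (n + 1) = N + n + 1 by ring]
    have h3 := h2.const_sub (1 / ((n + 1 : ℕ) : ℝ))
    rwa [sub_zero] at h3
  · intro m
    have h1 : (0 : ℝ) < ((m + n + 1 : ℕ) : ℝ) := by positivity
    have h2 : ((m + n + 1 : ℕ) : ℝ) ≤ ((m + n + 2 : ℕ) : ℝ) := by push_cast; linarith
    have := one_div_le_one_div_of_le h1 h2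
    linarith

theorem tele (n : ℕ) : HasSum (fun m : ℕ => (1 : ℝ) / ((m + 1 : ℕ) : ℝ) - 1 / ((m + n + 1 : ℕ) : ℝ))
    (∑ j ∈ range n, 1 / ((j + 1 : ℕ) : ℝ)) := by
  induction n with
  | zero => simp
  | succ n ih =>
    rw [Finset.sum_range_succ]
    have h := ih.add (tele_one n)
    convert h using 1
    ext m
    rw [show m + (n + 1) + 1 = m + n + 2 by ring]
    ring

theorem summable_G {B : ℕ} (hB : 2 ≤ B) : Summable fun p : ℕ × ℕ =>
    (1 : ℝ) / ((((p.2 + 1 : ℕ) : ℝ) * ((p.2 + p.1 + 2 : ℕ) : ℝ)) * (((p.1 + 1 : ℕ) : ℝ) ^ B)) := by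
  refine Summable.of_nonneg_of_le (fun p => by positivity) (fun p => ?_) summable_aux2
  set M : ℝ := ((p.1 + 1 : ℕ) : ℝ) with hM
  set N : ℝ := ((p.2 + 1 : ℕ) : ℝ) with hN
  have hM1 : 1 ≤ M := by rw [hM]; push_cast; linarith [(Nat.cast_nonneg p.1 : (0 : ℝ) ≤ p.1)]
  have hN1 : 1 ≤ N := by rw [hN]; push_cast; linarith [(Nat.cast_nonneg p.2 : (0 : ℝ) ≤ p.2)]
  have e : ((p.2 + p.1 + 2 : ℕ) : ℝ) = M + N := by rw [hM, hN]; push_cast; ring
  rw [e, one_div_mul_one_div]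
  have hs := sqrt_le hM1 hN1
  refine one_div_le_one_div_of_le (by positivity) ?_
  have h2 : M ≤ M ^ B := le_self_pow₀ hM1 (by omega)
  calc M * √M * (N * √N) = N * (√M * √N) * M := by ring
    _ ≤ N * (M + N) * M ^ B := by gcongr

/-- the two evaluations -/
theorem left_eval {B : ℕ} (hB : 2 ≤ B) : ∑' p : ℕ × ℕ,
    (1 : ℝ) / ((((p.2 + 1 : ℕ) : ℝ) * ((p.2 + p.1 + 2 : ℕ) : ℝ)) * (((p.1 + 1 : ℕ) : ℝ) ^ B)) =
    ∑' n : ℕ, (1 / ((n + 1 : ℕ) : ℝ) ^ (B + 1)) * ∑ j ∈ range (n + 1), 1 / ((j + 1 : ℕ) : ℝ) := by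
  rw [(summable_G hB).tsum_prod]
  refine tsum_congr fun n => ?_
  have h := (tele (n + 1)).mul_left (1 / ((n + 1 : ℕ) : ℝ) ^ (B + 1))
  rw [← h.tsum_eq]
  refine tsum_congr fun m => ?_
  show (1 : ℝ) / ((((m + 1 : ℕ) : ℝ) * ((m + n + 2 : ℕ) : ℝ)) * (((n + 1 : ℕ) : ℝ) ^ B)) = _
  rw [show m + (n + 1) + 1 = m + n + 2 by ring]
  have h1 : ((m + 1 : ℕ) : ℝ) ≠ 0 := by positivity
  have h2 : ((m + n + 2 : ℕ) : ℝ) ≠ 0 := by positivity
  have h3 : ((n + 1 : ℕ) : ℝ) ≠ 0 := by positivity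
  field_simp
  push_cast
  ring

theorem right_eval {a : ℕ} (ha : 2 ≤ a) : DZ a 1 + SZ (a + 1) =
    ∑' n : ℕ, (1 / ((n + 1 : ℕ) : ℝ) ^ a) * ∑ j ∈ range (n + 1), 1 / ((j + 1 : ℕ) : ℝ) := by
  set f : ℕ × ℕ → ℝ := fun p => if p.2 ≤ p.1 then (1 / ((p.1 + 1 : ℕ) : ℝ) ^ a) * (1 / ((p.2 + 1 : ℕ) : ℝ))
    else 0 with hf
  have h : HasSum f (DZ a 1 + 0 + SZ (a + 1)) := by
    refine hasSum_of_three ?_ ?_ ?_
    · have h := hasSum_DZ ha le_rfl
      convert h using 1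
      ext p
      show (if p.2 ≤ p.1 + p.2 + 1 then _ else (0 : ℝ)) = _
      rw [if_pos (by omega), one_div_mul_one_div, pow_one]
    · convert hasSum_zero using 1
      ext p
      show (if p.1 + p.2 + 1 ≤ p.2 then _ else (0 : ℝ)) = _
      rw [if_neg (by omega)]
    · have h : HasSum _ (SZ (a + 1)) := (summable_sz (show 2 ≤ a + 1 by omega)).hasSum
      convert h using 1
      ext p
      show (if p ≤ p then _ else (0 : ℝ)) = _
      rw [if_pos le_rfl, one_div_mul_one_div, pow_succ]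
  rw [add_zero] at h
  rw [← h.tsum_eq, h.summable.tsum_prod]
  refine tsum_congr fun n => ?_
  rw [tsum_eq_sum (s := range (n + 1))]
  · rw [Finset.mul_sum]
    refine Finset.sum_congr rfl fun j hj => ?_
    rw [mem_range] at hj
    show (if j ≤ n then _ else (0 : ℝ)) = _
    rw [if_pos (by omega)]
  · intro j hj
    rw [mem_range] at hj
    show (if j ≤ n then _ else (0 : ℝ)) = _
    rw [if_neg (by omega)]

theorem sum_formula {B : ℕ} (hB : 2 ≤ B) : ∑ j ∈ range B, DZ (B + 1 - j) (j + 1) = SZ (B + 2) := by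
  have h1 := left_eval hB
  rw [← right_eval (show 2 ≤ B + 1 by omega)] at h1
  have h2 : HasSum (fun p : ℕ × ℕ =>
      (1 : ℝ) / ((((p.2 + 1 : ℕ) : ℝ) * ((p.2 + p.1 + 2 : ℕ) : ℝ)) * (((p.1 + 1 : ℕ) : ℝ) ^ B)))
      (∑ j ∈ range B, DZ (B + 1 - j) (j + 1) + DZ (B + 1) 1) := by
    have h3 : ∀ j ∈ range B, HasSum (fun p : ℕ × ℕ =>
        (1 : ℝ) / ((((p.1 + p.2 + 2 : ℕ) : ℝ) ^ (B + 1 - j)) * (((p.1 + 1 : ℕ) : ℝ) ^ (j + 1))))
        (DZ (B + 1 - j) (j + 1)) := by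
      intro j hj
      rw [mem_range] at hj
      exact hasSum_DZ_swap (by omega) (by omega)
    have h4 := (hasSum_sum h3).add (hasSum_DZ (show 2 ≤ B + 1 by omega) (le_refl 1))
    convert h4 using 1
    ext p
    have h5 := pf_point 0 B (p.2, p.1)
    simp only [Finset.sum_add_distrib, zero_add] at h5
    have h6 : ∑ j ∈ range (B + 1), ((B - j).choose B : ℝ) * (1 / ((((p.2 + p.1 + 2 : ℕ) : ℝ) ^ (B + 1 - j)) *
        (((p.2 + 1 : ℕ) : ℝ) ^ (j + 1)))) = 1 / ((((p.2 + p.1 + 2 : ℕ) : ℝ) ^ (B + 1)) * ((p.2 + 1 : ℕ) : ℝ)) := by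
      rw [Finset.sum_eq_single 0]
      · simp
      · intro j hj hj0
        rw [mem_range] at hj
        rw [Nat.choose_eq_zero_of_lt (by omega)]
        simp
      · intro h'
        exact absurd (mem_range.2 (by omega)) h'
    rw [h6, Finset.sum_range_succ] at h5
    simp only [Nat.choose_zero_right, Nat.cast_one, one_mul] at h5
    rw [show B + 1 - B = 1 by omega] at h5
    simp only [show p.2 + p.1 + 2 = p.1 + p.2 + 2 by ring, pow_one] at h5 ⊢
    have e1 : ((p.1 + 1 : ℕ) : ℝ) ≠ 0 := by positivity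
    have e2 : ((p.2 + 1 : ℕ) : ℝ) ≠ 0 := by positivity
    have e3 : ((p.1 + p.2 + 2 : ℕ) : ℝ) ≠ 0 := by positivity
    have e4 : (1 : ℝ) / ((((p.2 + 1 : ℕ) : ℝ) * ((p.1 + p.2 + 2 : ℕ) : ℝ)) * (((p.1 + 1 : ℕ) : ℝ) ^ B)) =
        1 / ((p.2 + 1 : ℕ) : ℝ) * (1 / ((p.1 + 1 : ℕ) : ℝ) ^ (B + 1)) -
        1 / (((p.1 + p.2 + 2 : ℕ) : ℝ) * ((p.1 + 1 : ℕ) : ℝ) ^ (B + 1)) := by
      field_simp
      push_cast
      ring
    rw [e4]
    linarith
  have h3 := h2.tsum_eq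
  rw [h1] at h3
  have h4 : SZ (B + 1 + 1) = SZ (B + 2) := rfl
  linarith

end Pool.Agent.H21.GKZ
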