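import Pool.Agent.H21.GKZ.Rel
import Pool.Agent.H21.GKZ.Real
import Pool.Agent.H21.GKZ.Dim

/-!
# The span of the odd double zeta values
-/

set_option autoImplicit false

namespace Pool.Agent.H21.GKZ

open Finset Pool.Agent.H21.Ech

theorem alt_choose {n M : ℕ} (hM1 : 1 ≤ M) (hM : M ≤ 2 * n) :
    ∑ b ∈ Ico 1 (2 * n), ((-1 : ℚ)) ^ b * (M.choose b : ℚ) = -1 - (if M = 2 * n then 1 else 0) := by
  have h1 : ∑ b ∈ range (2 * n + 1), ((-1 : ℚ)) ^ b * (M.choose b : ℚ) = 0 := by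
    have h2 : ∑ b ∈ range (M + 1), ((-1 : ℚ)) ^ b * (M.choose b : ℚ) = 0 := by
      have h3 := Int.alternating_sum_range_choose (n := M)
      rw [if_neg (by omega)] at h3
      exact_mod_cast h3
    rw [← h2]
    symm
    apply Finset.sum_subset
    · intro b hb
      rw [mem_range] at hb ⊢
      omega
    · intro b _ hb
      rw [mem_range, not_lt] at hb
      rw [Nat.choose_eq_zero_of_lt (by omega)]
      simp
  rw [Finset.sum_range_succ, Finset.range_eq_Ico, Finset.sum_eq_sum_Ico_succ_bot (by omega)] at h1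
  have h4 : ((-1 : ℚ)) ^ (2 * n) * (M.choose (2 * n) : ℚ) = if M = 2 * n then 1 else 0 := by
    split_ifs with h
    · subst h
      rw [Nat.choose_self, Even.neg_one_pow ⟨n, by ring⟩]
      norm_num
    · rw [Nat.choose_eq_zero_of_lt (by omega)]
      simp
  rw [h4] at h1
  simp only [pow_zero, Nat.choose_zero_right, Nat.cast_one, mul_one, zero_add] at h1
  linarith

theorem neg_pow_reflect {n b : ℕ} (hb : b ≤ 2 * n) : ((-1 : ℚ)) ^ (2 * n - b) = (-1) ^ b := by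
  rcases Nat.even_or_odd' b with ⟨c, h | h⟩
  · rw [Even.neg_one_pow (n := b) ⟨c, by omega⟩, Even.neg_one_pow (n := 2 * n - b) ⟨n - c, by omega⟩]
  · rw [Odd.neg_one_pow (n := b) ⟨c, by omega⟩, Odd.neg_one_pow (n := 2 * n - b) ⟨n - c - 1, by omega⟩]

/-- the sum of the odd double zeta values -/
theorem odd_sum {n : ℕ} (hn : 1 ≤ n) {V : Type*} [AddCommGroup V] [Module ℚ V] {Z Pp : ℕ → V} {z : V}
    (st : ∀ b, 1 ≤ b → b < 2 * n → Pp b = Z b + Z (2 * n - b) + z)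
    (sh : ∀ b, 1 ≤ b → b < 2 * n → Pp b = ∑ j ∈ range (2 * n),
      (((2 * n - j).choose (2 * n - b) : ℚ) + ((2 * n - j).choose b : ℚ)) • Z j)
    (sm : ∑ j ∈ range (2 * n), Z j = z) : (4 : ℚ) • ∑ i ∈ range n, Z (2 * i) = z := by
  have h1 : ∑ b ∈ Ico 1 (2 * n), ((-1 : ℚ)) ^ b • Pp b =
      (2 : ℚ) • ∑ b ∈ Ico 1 (2 * n), ((-1 : ℚ)) ^ b • Z b - z := by
    have e1 : ∑ b ∈ Ico 1 (2 * n), ((-1 : ℚ)) ^ b • Pp b = ∑ b ∈ Ico 1 (2 * n), ((-1 : ℚ)) ^ b • Z b +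
        ∑ b ∈ Ico 1 (2 * n), ((-1 : ℚ)) ^ (2 * n - b) • Z (2 * n - b) +
        (∑ b ∈ Ico 1 (2 * n), ((-1 : ℚ)) ^ b) • z := by
      rw [Finset.sum_smul, ← Finset.sum_add_distrib, ← Finset.sum_add_distrib]
      refine Finset.sum_congr rfl fun b hb => ?_
      rw [mem_Ico] at hb
      rw [st b (by omega) (by omega), neg_pow_reflect (by omega), smul_add, smul_add]
    have e2 : ∑ b ∈ Ico 1 (2 * n), ((-1 : ℚ)) ^ b = -1 := by
      have h0 : ∀ N : ℕ, ∑ b ∈ Ico 1 (2 * (N + 1)), ((-1 : ℚ)) ^ b = -1 := by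
        intro N
        induction N with
        | zero => norm_num
        | succ N ih =>
          rw [show 2 * (N + 1 + 1) = 2 * (N + 1) + 1 + 1 by ring, Finset.sum_Ico_succ_top (by omega),
            Finset.sum_Ico_succ_top (by omega), ih, Even.neg_one_pow (n := 2 * (N + 1)) ⟨N + 1, by ring⟩,
            Odd.neg_one_pow (n := 2 * (N + 1) + 1) ⟨N + 1, rfl⟩]
          norm_num
      have := h0 (n - 1)
      rwa [Nat.sub_add_cancel hn] at this
    rw [e1, sum_reflect_Ico (2 * n) fun b => ((-1 : ℚ)) ^ b • Z b, e2, two_smul, neg_smul, one_smul]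
    abel
  have h2 : ∑ b ∈ Ico 1 (2 * n), ((-1 : ℚ)) ^ b • Pp b = -((2 : ℚ) • z) - (2 : ℚ) • Z 0 := by
    have e1 : ∑ b ∈ Ico 1 (2 * n), ((-1 : ℚ)) ^ b • Pp b = ∑ j ∈ range (2 * n),
        (∑ b ∈ Ico 1 (2 * n), ((-1 : ℚ)) ^ (2 * n - b) * ((2 * n - j).choose (2 * n - b) : ℚ) +
          ∑ b ∈ Ico 1 (2 * n), ((-1 : ℚ)) ^ b * ((2 * n - j).choose b : ℚ)) • Z j := by
      have e2 : ∀ b ∈ Ico 1 (2 * n), ((-1 : ℚ)) ^ b • Pp b = ∑ j ∈ range (2 * n),
          (((-1 : ℚ)) ^ (2 * n - b) * ((2 * n - j).choose (2 * n - b) : ℚ) +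
            ((-1 : ℚ)) ^ b * ((2 * n - j).choose b : ℚ)) • Z j := by
        intro b hb
        rw [mem_Ico] at hb
        rw [sh b (by omega) (by omega), Finset.smul_sum]
        refine Finset.sum_congr rfl fun j _ => ?_
        rw [smul_smul, neg_pow_reflect (by omega)]
        congr 1
        ring
      rw [Finset.sum_congr rfl e2, Finset.sum_comm]
      refine Finset.sum_congr rfl fun j _ => ?_
      rw [← Finset.sum_add_distrib, Finset.sum_smul]
    have e3 : ∀ j ∈ range (2 * n),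
        (∑ b ∈ Ico 1 (2 * n), ((-1 : ℚ)) ^ (2 * n - b) * ((2 * n - j).choose (2 * n - b) : ℚ) +
          ∑ b ∈ Ico 1 (2 * n), ((-1 : ℚ)) ^ b * ((2 * n - j).choose b : ℚ)) • Z j =
        -((2 : ℚ) • Z j) - (if j = 0 then (2 : ℚ) • Z 0 else 0) := by
      intro j hj
      rw [mem_range] at hj
      rw [sum_reflect_Ico (2 * n) fun b => ((-1 : ℚ)) ^ b * ((2 * n - j).choose b : ℚ),
        alt_choose (by omega) (by omega)]
      by_cases h : j = 0
      · subst h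
        rw [if_pos (by omega), if_pos rfl, ← neg_smul, ← sub_smul]
        congr 1
        norm_num
      · rw [if_neg (by omega), if_neg h, sub_zero, ← neg_smul]
        norm_num
    rw [e1, Finset.sum_congr rfl e3, Finset.sum_sub_distrib, Finset.sum_neg_distrib, ← Finset.smul_sum,
      sm, Finset.sum_ite_eq' (range (2 * n)) 0, if_pos (mem_range.2 (by omega))]
  have h3 : (2 : ℚ) • ∑ b ∈ range (2 * n), ((-1 : ℚ)) ^ b • Z b = - z := by
    have e1 : ∑ b ∈ range (2 * n), ((-1 : ℚ)) ^ b • Z b = Z 0 + ∑ b ∈ Ico 1 (2 * n), ((-1 : ℚ)) ^ b • Z b := by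
      rw [Finset.range_eq_Ico, Finset.sum_eq_sum_Ico_succ_bot (by omega), pow_zero, one_smul]
    rw [e1, smul_add]
    rw [h1] at h2
    have h4 : (2 : ℚ) • ∑ b ∈ Ico 1 (2 * n), ((-1 : ℚ)) ^ b • Z b =
        z + (-((2 : ℚ) • z) - (2 : ℚ) • Z 0) := by
      rw [← h2]
      abel
    rw [h4, two_smul ℚ z]
    abel
  rw [sum_even_odd] at h3 sm
  have h5 : ∑ i ∈ range n, ((-1 : ℚ)) ^ (2 * i) • Z (2 * i) = ∑ i ∈ range n, Z (2 * i) :=
    Finset.sum_congr rfl fun i _ => by rw [Even.neg_one_pow ⟨i, by ring⟩, one_smul]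
  have h6 : ∑ i ∈ range n, ((-1 : ℚ)) ^ (2 * i + 1) • Z (2 * i + 1) = - ∑ i ∈ range n, Z (2 * i + 1) := by
    rw [← Finset.sum_neg_distrib]
    exact Finset.sum_congr rfl fun i _ => by rw [Odd.neg_one_pow ⟨i, rfl⟩, neg_smul, one_smul]
  rw [h5, h6] at h3
  set x := ∑ i ∈ range n, Z (2 * i) with hx
  set y := ∑ i ∈ range n, Z (2 * i + 1) with hy
  have h7 : (4 : ℚ) • x = (2 : ℚ) • (x + -y) + (2 : ℚ) • (x + y) := by
    rw [← smul_add, show x + -y + (x + y) = (2 : ℚ) • x by rw [two_smul]; abel, smul_smul]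
    norm_num
  rw [h7, h3, sm, two_smul]
  abel

/-! ### even values -/

theorem SZ_even {k : ℕ} (hk : k ≠ 0) : ∃ q : ℚ, q ≠ 0 ∧ SZ (2 * k) = q * Real.pi ^ (2 * k) := by
  have h := hasSum_zeta_nat hk
  have h1 : SZ (2 * k) = (-1 : ℝ) ^ (k + 1) * (2 : ℝ) ^ (2 * k - 1) * Real.pi ^ (2 * k) *
        bernoulli (2 * k) / (2 * k).factorial := by
    rw [← h.tsum_eq, h.summable.tsum_eq_zero_add]
    unfold SZ
    rw [Nat.cast_zero, zero_pow (by omega), div_zero, zero_add]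
  have hpos : 0 < SZ (2 * k) := by
    have hs := summable_sz (show 2 ≤ 2 * k by omega)
    exact hs.tsum_pos (fun n => by positivity) 0 (by norm_num)
  refine ⟨(-1 : ℚ) ^ (k + 1) * (2 : ℚ) ^ (2 * k - 1) * bernoulli (2 * k) / (2 * k).factorial, ?_, ?_⟩
  · intro h0
    have h2 : SZ (2 * k) = (((-1 : ℚ) ^ (k + 1) * (2 : ℚ) ^ (2 * k - 1) * bernoulli (2 * k) /
        (2 * k).factorial : ℚ) : ℝ) * Real.pi ^ (2 * k) := by
      rw [h1]
      push_cast
      ring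
    rw [h0, Rat.cast_zero, zero_mul] at h2
    linarith
  · rw [h1]
    push_cast
    ring

theorem SZ_mul {a b : ℕ} (ha : a ≠ 0) (hb : b ≠ 0) :
    SZ (2 * a) * SZ (2 * b) ∈ Submodule.span ℚ {SZ (2 * (a + b))} := by
  obtain ⟨q, hq, h1⟩ := SZ_even ha
  obtain ⟨r, hr, h2⟩ := SZ_even hb
  obtain ⟨s, hs, h3⟩ := SZ_even (show a + b ≠ 0 by omega)
  rw [Submodule.mem_span_singleton]
  refine ⟨q * r / s, ?_⟩
  rw [h1, h2, h3, Rat.smul_def]
  have : (s : ℝ) ≠ 0 := by exact_mod_cast hs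
  push_cast
  rw [show 2 * (a + b) = 2 * a + 2 * b by ring, pow_add]
  field_simp

/-! ### the theorem -/

/-- the double zeta value `ζ(2 i + 3, 2 m - 2 i - 3)` -/
noncomputable def dz (m i : ℕ) : ℝ :=
  ∑' p : ℕ × ℕ, (1 : ℝ) / ((((p.1 + p.2 + 2 : ℕ) : ℝ) ^ (2 * i + 3)) * (((p.2 + 1 : ℕ) : ℝ) ^ (2 * m - 2 * i - 3)))

theorem dz_eq {h j : ℕ} (hj : j < h + 1) : DZ (2 * (h + 1) + 1 - 2 * j) (2 * j + 1) = dz (h + 2) (h - j) := by
  unfold DZ dz
  rw [show 2 * (h + 1) + 1 - 2 * j = 2 * (h - j) + 3 by omega,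
    show 2 * (h + 2) - 2 * (h - j) - 3 = 2 * j + 1 by omega]

theorem st_real (h : ℕ) : ∀ b, 1 ≤ b → b < 2 * (h + 1) →
    SZ (2 * (h + 1) + 1 - b) * SZ (b + 1) = DZ (2 * (h + 1) + 1 - b) (b + 1) +
      DZ (2 * (h + 1) + 1 - (2 * (h + 1) - b)) ((2 * (h + 1) - b) + 1) + SZ (2 * (h + 2)) := by
  intro b h1 h2
  rw [stuffle (by omega) (by omega), show 2 * (h + 1) + 1 - b + (b + 1) = 2 * (h + 2) by omega,
    show 2 * (h + 1) + 1 - (2 * (h + 1) - b) = b + 1 by omega,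
    show (2 * (h + 1) - b) + 1 = 2 * (h + 1) + 1 - b by omega]

theorem sh_real (h : ℕ) : ∀ b, 1 ≤ b → b < 2 * (h + 1) →
    SZ (2 * (h + 1) + 1 - b) * SZ (b + 1) = ∑ j ∈ range (2 * (h + 1)),
      (((2 * (h + 1) - j).choose (2 * (h + 1) - b) : ℚ) + ((2 * (h + 1) - j).choose b : ℚ)) •
        DZ (2 * (h + 1) + 1 - j) (j + 1) := by
  intro b h1 h2
  have h3 := shuffle (A := 2 * (h + 1) - b) (B := b) (by omega) h1
  rw [show 2 * (h + 1) - b + 1 = 2 * (h + 1) + 1 - b by omega,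
    show 2 * (h + 1) - b + b = 2 * (h + 1) by omega] at h3
  rw [h3]
  refine Finset.sum_congr rfl fun j _ => ?_
  rw [Rat.smul_def]
  push_cast
  rfl

theorem ev_real (h : ℕ) : ∀ b, b % 2 = 1 → b < 2 * (h + 1) →
    SZ (2 * (h + 1) + 1 - b) * SZ (b + 1) ∈ Submodule.span ℚ {SZ (2 * (h + 2))} := by
  intro b h1 h2
  have h3 := SZ_mul (a := (2 * (h + 1) + 1 - b) / 2) (b := (b + 1) / 2) (by omega) (by omega)
  rw [show 2 * ((2 * (h + 1) + 1 - b) / 2) = 2 * (h + 1) + 1 - b by omega,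
    show 2 * ((b + 1) / 2) = b + 1 by omega,
    show 2 * ((2 * (h + 1) + 1 - b) / 2 + (b + 1) / 2) = 2 * (h + 2) by omega] at h3
  exact h3

theorem sm_real (h : ℕ) : ∑ j ∈ range (2 * (h + 1)), DZ (2 * (h + 1) + 1 - j) (j + 1) = SZ (2 * (h + 2)) := by
  rw [sum_formula (by omega), show 2 * (h + 1) + 2 = 2 * (h + 2) by ring]

/-- the equality of the spans -/
theorem span_eq (h : ℕ) : Submodule.span ℚ (Set.range fun i : Fin (h + 1) => dz (h + 2) i) =
    Submodule.span ℚ ({SZ (2 * (h + 2))} ∪ Set.range fun i : Fin (h + 1 - mu h) => dz (h + 2) i) := by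
  have hmu : 1 ≤ mu h := by unfold mu; omega
  apply le_antisymm
  · rw [Submodule.span_le]
    rintro _ ⟨i, rfl⟩
    rcases Nat.lt_or_ge (i : ℕ) (h + 1 - mu h) with hi | hi
    · exact Submodule.subset_span (Or.inr ⟨⟨i, hi⟩, rfl⟩)
    · have h1 := span1 (h := h) (Z := fun j => DZ (2 * (h + 1) + 1 - j) (j + 1))
        (Pp := fun b => SZ (2 * (h + 1) + 1 - b) * SZ (b + 1)) (z := SZ (2 * (h + 2)))
        (st_real h) (sh_real h) (ev_real h) (sm_real h) (h - i) (by omega)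
      have hi2 := i.2
      rw [dz_eq (by omega), show h - (h - (i : ℕ)) = i by omega] at h1
      refine Submodule.span_mono ?_ h1
      apply Set.union_subset_union_right
      rintro _ ⟨j, hj1, hj2, rfl⟩
      refine ⟨⟨h - j, by omega⟩, ?_⟩
      rw [dz_eq (by omega)]
  · rw [Submodule.span_le, Set.union_subset_iff]
    constructor
    · rw [Set.singleton_subset_iff]
      have h1 := odd_sum (n := h + 1) (by omega) (Z := fun j => DZ (2 * (h + 1) + 1 - j) (j + 1))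
        (Pp := fun b => SZ (2 * (h + 1) + 1 - b) * SZ (b + 1)) (z := SZ (2 * (h + 2)))
        (st_real h) (sh_real h) (sm_real h)
      rw [← h1]
      refine Submodule.smul_mem _ _ (Submodule.sum_mem _ fun i hi => ?_)
      rw [mem_range] at hi
      rw [dz_eq hi]
      exact Submodule.subset_span ⟨⟨h - i, by omega⟩, rfl⟩
    · rintro _ ⟨i, rfl⟩
      have hi := i.2
      exact Submodule.subset_span ⟨⟨i, by omega⟩, rfl⟩

end Pool.Agent.H21.GKZ
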