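import Pool.Agent.H21.GKZ.Alg

/-!
# The span of the odd double zeta values, abstractly
-/

set_option autoImplicit false

namespace Pool.Agent.H21.GKZ

open Finset Pool.Agent.H21.Ech

variable {V : Type*} [AddCommGroup V] [Module ℚ V]

/-- double shuffle relations of weight `2 n + 2` modulo the single zeta value; `Z b` is the double
zeta value with the arguments `2 n + 1 - b` and `b + 1` -/
structure DS (n : ℕ) (Z Pp : ℕ → V) : Prop where
  st : ∀ b, 1 ≤ b → b < 2 * n → Pp b = Z b + Z (2 * n - b)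
  sh : ∀ b, 1 ≤ b → b < 2 * n → Pp b = ∑ j ∈ range (2 * n),
    (((2 * n - j).choose (2 * n - b) : ℚ) + ((2 * n - j).choose b : ℚ)) • Z j
  ev : ∀ b, b % 2 = 1 → b < 2 * n → Pp b = 0
  sm : ∑ j ∈ range (2 * n), Z j = 0

theorem sum_reflect_Ico {M : Type*} [AddCommMonoid M] (N : ℕ) (f : ℕ → M) :
    ∑ j ∈ Ico 1 N, f (N - j) = ∑ j ∈ Ico 1 N, f j := by
  refine Finset.sum_nbij' (fun j => N - j) (fun j => N - j) ?_ ?_ ?_ ?_ ?_
  · intro j hj; rw [mem_Ico] at hj ⊢; omega
  · intro j hj; rw [mem_Ico] at hj ⊢; omega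
  · intro j hj; rw [mem_Ico] at hj; show N - (N - j) = j; omega
  · intro j hj; rw [mem_Ico] at hj; show N - (N - j) = j; omega
  · intro j _; rfl

theorem half_zero {x : V} (h : x + x = 0) : x = 0 := by
  rw [← two_smul ℚ] at h
  exact (smul_eq_zero.1 h).resolve_left (by norm_num)

theorem choose_id {n b j : ℕ} (hb : b ≤ 2 * n) (hj : j ≤ 2 * n) :
    ((2 * n).choose b : ℚ) * (b.choose j : ℚ) = ((2 * n).choose j : ℚ) * ((2 * n - j).choose (2 * n - b) : ℚ) := by
  rcases Nat.lt_or_ge b j with h | h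
  · rw [Nat.choose_eq_zero_of_lt h, Nat.choose_eq_zero_of_lt (show 2 * n - j < 2 * n - b by omega)]
    simp
  · have h1 := Nat.choose_mul (n := 2 * n) h
    have h2 : (2 * n - j).choose (2 * n - b) = (2 * n - j).choose (b - j) := by
      rw [← Nat.choose_symm (show b - j ≤ 2 * n - j by omega)]
      congr 1
      omega
    rw [h2]
    exact_mod_cast h1

omit [Module ℚ V] in
theorem sum_even_odd (n : ℕ) (f : ℕ → V) :
    ∑ j ∈ range (2 * n), f j = ∑ i ∈ range n, f (2 * i) + ∑ i ∈ range n, f (2 * i + 1) := by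
  induction n with
  | zero => simp
  | succ n ih =>
    rw [show 2 * (n + 1) = 2 * n + 1 + 1 by ring, Finset.sum_range_succ, Finset.sum_range_succ, ih,
      Finset.sum_range_succ, Finset.sum_range_succ]
    abel

/-- **the relation of a period polynomial** -/
theorem relation {n : ℕ} (hn : 1 ≤ n) {Z Pp : ℕ → V} (hD : DS n Z Pp) {p : ℕ → ℚ} (h : Per n p) :
    ∑ i ∈ range n, (g n p (2 * i) / ((2 * n).choose (2 * i) : ℚ)) • Z (2 * i) = 0 := by
  set c : ℕ → ℚ := fun b => F n p b / ((2 * n).choose b : ℚ) with hc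
  have hC : ∀ b ≤ 2 * n, ((2 * n).choose b : ℚ) ≠ 0 := fun b hb => by
    exact_mod_cast (Nat.choose_pos hb).ne'
  have hcs : ∀ b ≤ 2 * n, c (2 * n - b) = c b := by
    intro b hb
    show F n p (2 * n - b) / ((2 * n).choose (2 * n - b) : ℚ) = F n p b / ((2 * n).choose b : ℚ)
    rw [← F_symm h b hb, Nat.choose_symm hb]
  have hU : ∀ j ≤ 2 * n, U n p j / ((2 * n).choose j : ℚ) =
      c j - ∑ b ∈ range (2 * n + 1), c b * ((2 * n - j).choose (2 * n - b) : ℚ) := by
    intro j hj
    unfold U
    rw [sub_div, Finset.sum_div]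
    congr 1
    refine Finset.sum_congr rfl fun b hb => ?_
    rw [mem_range] at hb
    have h1 := choose_id (n := n) (show b ≤ 2 * n by omega) hj
    have h2 := hC b (by omega)
    have h3 := hC j hj
    show F n p b * (b.choose j : ℚ) / ((2 * n).choose j : ℚ) =
      F n p b / ((2 * n).choose b : ℚ) * ((2 * n - j).choose (2 * n - b) : ℚ)
    field_simp
    linear_combination F n p b * h1
  -- the two sums
  set A' : V := ∑ b ∈ Ico 1 (2 * n), c b • Z b with hA'
  set B' : V := ∑ b ∈ Ico 1 (2 * n), c b • ∑ j ∈ range (2 * n),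
    ((2 * n - j).choose (2 * n - b) : ℚ) • Z j with hB'
  have hAA : A' + A' = ∑ b ∈ Ico 1 (2 * n), c b • Pp b := by
    have e : A' = ∑ b ∈ Ico 1 (2 * n), c b • Z (2 * n - b) := by
      rw [hA', ← sum_reflect_Ico (2 * n) fun b => c b • Z b]
      refine Finset.sum_congr rfl fun b hb => ?_
      rw [mem_Ico] at hb
      rw [hcs b (by omega)]
    nth_rewrite 2 [e]
    rw [hA', ← Finset.sum_add_distrib]
    refine Finset.sum_congr rfl fun b hb => ?_
    rw [mem_Ico] at hb
    rw [hD.st b (by omega) (by omega), smul_add]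
  have hBB : B' + B' = ∑ b ∈ Ico 1 (2 * n), c b • Pp b := by
    have e : B' = ∑ b ∈ Ico 1 (2 * n), c b • ∑ j ∈ range (2 * n), ((2 * n - j).choose b : ℚ) • Z j := by
      rw [hB', ← sum_reflect_Ico (2 * n) fun b => c b • ∑ j ∈ range (2 * n),
        ((2 * n - j).choose (2 * n - b) : ℚ) • Z j]
      refine Finset.sum_congr rfl fun b hb => ?_
      rw [mem_Ico] at hb
      rw [hcs b (by omega), show 2 * n - (2 * n - b) = b by omega]
    nth_rewrite 2 [e]
    rw [hB', ← Finset.sum_add_distrib]
    refine Finset.sum_congr rfl fun b hb => ?_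
    rw [mem_Ico] at hb
    rw [hD.sh b (by omega) (by omega), ← smul_add, ← Finset.sum_add_distrib]
    congr 1
    refine Finset.sum_congr rfl fun j _ => ?_
    rw [add_smul]
  have hAB : A' = B' := by
    have : (A' - B') + (A' - B') = 0 := by
      have e : (A' - B') + (A' - B') = (A' + A') - (B' + B') := by abel
      rw [e, hAA, hBB, sub_self]
    exact sub_eq_zero.1 (half_zero this)
  -- the sum over all `j`
  have hS : ∑ j ∈ range (2 * n), (U n p j / ((2 * n).choose j : ℚ)) • Z j = 0 := by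
    have e1 : ∑ j ∈ range (2 * n), (U n p j / ((2 * n).choose j : ℚ)) • Z j =
        ∑ j ∈ range (2 * n), c j • Z j - ∑ b ∈ range (2 * n + 1), c b • ∑ j ∈ range (2 * n),
          ((2 * n - j).choose (2 * n - b) : ℚ) • Z j := by
      have e2 : ∑ b ∈ range (2 * n + 1), c b • ∑ j ∈ range (2 * n),
          ((2 * n - j).choose (2 * n - b) : ℚ) • Z j =
          ∑ j ∈ range (2 * n), (∑ b ∈ range (2 * n + 1), c b * ((2 * n - j).choose (2 * n - b) : ℚ)) • Z j := by
        simp only [Finset.smul_sum, Finset.sum_smul, smul_smul]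
        exact Finset.sum_comm
      rw [e2, ← Finset.sum_sub_distrib]
      refine Finset.sum_congr rfl fun j hj => ?_
      rw [mem_range] at hj
      rw [hU j (by omega), sub_smul]
    rw [e1]
    have e3 : ∑ j ∈ range (2 * n), c j • Z j = c 0 • Z 0 + A' := by
      rw [Finset.range_eq_Ico, Finset.sum_eq_sum_Ico_succ_bot (by omega)]
    have e4 : ∑ b ∈ range (2 * n + 1), c b • ∑ j ∈ range (2 * n),
          ((2 * n - j).choose (2 * n - b) : ℚ) • Z j = c 0 • Z 0 + B' := by
      rw [Finset.sum_range_succ, Finset.range_eq_Ico, Finset.sum_eq_sum_Ico_succ_bot (by omega),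
        ← Finset.range_eq_Ico]
      have e5 : ∑ j ∈ range (2 * n), ((2 * n - j).choose (2 * n - 0) : ℚ) • Z j = Z 0 := by
        rw [Finset.sum_eq_single 0]
        · simp
        · intro j hj hj0
          rw [mem_range] at hj
          rw [Nat.choose_eq_zero_of_lt (by omega)]
          simp
        · intro h'
          exact absurd (mem_range.2 (by omega)) h'
      have e6 : ∑ j ∈ range (2 * n), ((2 * n - j).choose (2 * n - 2 * n) : ℚ) • Z j = 0 := by
        rw [← hD.sm]
        refine Finset.sum_congr rfl fun j _ => ?_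
        simp
      rw [e5, e6, smul_zero, add_zero]
    rw [e3, e4, hAB, sub_self]
  -- split into even and odd
  rw [sum_even_odd] at hS
  have hodd : ∑ i ∈ range n, (U n p (2 * i + 1) / ((2 * n).choose (2 * i + 1) : ℚ)) • Z (2 * i + 1) = 0 := by
    apply half_zero
    have e : ∑ i ∈ range n, (U n p (2 * i + 1) / ((2 * n).choose (2 * i + 1) : ℚ)) • Z (2 * i + 1) =
        ∑ i ∈ range n, (U n p (2 * i + 1) / ((2 * n).choose (2 * i + 1) : ℚ)) • Z (2 * n - (2 * i + 1)) := by
      refine Finset.sum_nbij' (fun i => n - 1 - i) (fun i => n - 1 - i) ?_ ?_ ?_ ?_ ?_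
      · intro j hj; rw [mem_range] at hj ⊢; omega
      · intro j hj; rw [mem_range] at hj ⊢; omega
      · intro j hj; rw [mem_range] at hj; show n - 1 - (n - 1 - j) = j; omega
      · intro j hj; rw [mem_range] at hj; show n - 1 - (n - 1 - j) = j; omega
      · intro j hj
        rw [mem_range] at hj
        show _ = (U n p (2 * (n - 1 - j) + 1) / ((2 * n).choose (2 * (n - 1 - j) + 1) : ℚ)) •
          Z (2 * n - (2 * (n - 1 - j) + 1))
        have e1 : 2 * (n - 1 - j) + 1 = 2 * n - (2 * j + 1) := by omega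
        have e2 : 2 * n - (2 * n - (2 * j + 1)) = 2 * j + 1 := by omega
        rw [e1, e2, Nat.choose_symm (by omega), U_eq h _ (by omega), U_eq h _ (by omega)]
        have h3 := g_odd h (2 * j + 1) (by omega)
        rw [if_neg (by omega)] at h3
        have h4 : g n p (2 * n - (2 * j + 1)) = g n p (2 * j + 1) := by linarith
        have h5 : ((-1 : ℚ)) ^ (2 * n - (2 * j + 1)) = -1 := Odd.neg_one_pow ⟨n - 1 - j, by omega⟩
        have h6 : ((-1 : ℚ)) ^ (2 * j + 1) = -1 := Odd.neg_one_pow ⟨j, by ring⟩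
        rw [h4, h5, h6]
    nth_rewrite 2 [e]
    rw [← Finset.sum_add_distrib]
    refine Finset.sum_eq_zero fun i hi => ?_
    rw [mem_range] at hi
    rw [← smul_add, ← hD.st (2 * i + 1) (by omega) (by omega), hD.ev _ (by omega) (by omega), smul_zero]
  rw [hodd, add_zero] at hS
  have h3 : ∑ i ∈ range n, (U n p (2 * i) / ((2 * n).choose (2 * i) : ℚ)) • Z (2 * i) =
      (3 : ℚ) • ∑ i ∈ range n, (g n p (2 * i) / ((2 * n).choose (2 * i) : ℚ)) • Z (2 * i) := by
    rw [Finset.smul_sum]
    refine Finset.sum_congr rfl fun i hi => ?_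
    rw [mem_range] at hi
    rw [U_eq h _ (by omega), smul_smul, Even.neg_one_pow ⟨i, by ring⟩]
    congr 1
    ring
  rw [h3] at hS
  exact (smul_eq_zero.1 hS).resolve_left (by norm_num)

/-- **the span** -/
theorem span0 {h : ℕ} {Z Pp : ℕ → V} (hD : DS (h + 1) Z Pp) : ∀ j, j < mu h →
    Z (2 * j) ∈ Submodule.span ℚ {x | ∃ i, mu h ≤ i ∧ i < h + 1 ∧ x = Z (2 * i)} := by
  have hmu : mu h ≤ h + 1 := by unfold mu; omega
  have key : ∀ t j, j + t = mu h → 1 ≤ t →
      Z (2 * j) ∈ Submodule.span ℚ {x | ∃ i, mu h ≤ i ∧ i < h + 1 ∧ x = Z (2 * i)} := by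
    intro t
    induction t using Nat.strong_induction_on with
    | _ t ih =>
      intro j hj ht
      obtain ⟨c, hc1, hc2, hc3⟩ := exists_period h (fun i => if i = j then 1 else 0)
      have hP : Per (h + 1) c := by
        refine ⟨fun i hi => hc2 i hi, fun x h0 h1 => ?_⟩
        have := hc3 x h0 h1
        rw [← this]
        unfold P
        rw [← Finset.sum_sub_distrib, ← Finset.sum_sub_distrib]
        refine Finset.sum_congr rfl fun i _ => ?_
        ring
      have hr := relation (by omega) hD hP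
      have hg0 : ∀ i < j, g (h + 1) c (2 * i) = 0 := by
        intro i hi
        unfold g
        refine Finset.sum_eq_zero fun l _ => ?_
        split_ifs with h1
        · rw [hc1 l (by omega), if_neg (by omega), zero_mul]
        · rfl
      have hgj : g (h + 1) c (2 * j) = 1 := by
        unfold g
        rw [Finset.sum_eq_single j]
        · rw [if_pos le_rfl, hc1 j (by omega), if_pos rfl, Nat.sub_self, Nat.choose_zero_right]
          norm_num
        · intro l _ hl
          split_ifs with h1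
          · rw [hc1 l (by omega), if_neg hl, zero_mul]
          · rfl
        · intro h'
          exact absurd (mem_range.2 (by omega)) h'
      rw [← Finset.add_sum_erase _ _ (mem_range.2 (show j < h + 1 by omega)), hgj] at hr
      have hC : ((2 * (h + 1)).choose (2 * j) : ℚ) ≠ 0 := by
        exact_mod_cast (Nat.choose_pos (by omega)).ne'
      have hZ : Z (2 * j) = (-((2 * (h + 1)).choose (2 * j) : ℚ)) • ∑ i ∈ (range (h + 1)).erase j,
          (g (h + 1) c (2 * i) / ((2 * (h + 1)).choose (2 * i) : ℚ)) • Z (2 * i) := by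
        have h2 := congrArg (fun y => ((2 * (h + 1)).choose (2 * j) : ℚ) • y) hr
        simp only [smul_add, smul_zero, smul_smul] at h2
        rw [mul_one_div_cancel hC, one_smul] at h2
        rw [neg_smul]
        exact eq_neg_of_add_eq_zero_left h2
      rw [hZ]
      refine Submodule.smul_mem _ _ (Submodule.sum_mem _ fun i hi => ?_)
      rw [Finset.mem_erase, mem_range] at hi
      rcases Nat.lt_or_ge i j with h1 | h1
      · rw [hg0 i h1, zero_div, zero_smul]
        exact Submodule.zero_mem _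
      · refine Submodule.smul_mem _ _ ?_
        rcases Nat.lt_or_ge i (mu h) with h3 | h3
        · exact ih (mu h - i) (by omega) i (by omega) (by omega)
        · exact Submodule.subset_span ⟨i, h3, hi.2, rfl⟩
  intro j hj
  exact key (mu h - j) j (by omega) (by omega)

/-- the same with the single zeta value -/
theorem span1 {h : ℕ} {Z Pp : ℕ → V} {z : V}
    (st : ∀ b, 1 ≤ b → b < 2 * (h + 1) → Pp b = Z b + Z (2 * (h + 1) - b) + z)
    (sh : ∀ b, 1 ≤ b → b < 2 * (h + 1) → Pp b = ∑ j ∈ range (2 * (h + 1)),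
      (((2 * (h + 1) - j).choose (2 * (h + 1) - b) : ℚ) + ((2 * (h + 1) - j).choose b : ℚ)) • Z j)
    (ev : ∀ b, b % 2 = 1 → b < 2 * (h + 1) → Pp b ∈ Submodule.span ℚ {z})
    (sm : ∑ j ∈ range (2 * (h + 1)), Z j = z) : ∀ j, j < mu h →
    Z (2 * j) ∈ Submodule.span ℚ ({z} ∪ {x | ∃ i, mu h ≤ i ∧ i < h + 1 ∧ x = Z (2 * i)}) := by
  set π := (Submodule.span ℚ {z}).mkQ with hπ
  have hz : π z = 0 := by
    rw [hπ, Submodule.mkQ_apply, Submodule.Quotient.mk_eq_zero]
    exact Submodule.subset_span rfl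
  have hD : DS (h + 1) (fun b => π (Z b)) (fun b => π (Pp b)) := by
    refine ⟨fun b h1 h2 => ?_, fun b h1 h2 => ?_, fun b h1 h2 => ?_, ?_⟩
    · rw [st b h1 h2, map_add, map_add, hz, add_zero]
    · rw [sh b h1 h2, map_sum]
      exact Finset.sum_congr rfl fun j _ => by rw [map_smul]
    · rw [hπ, Submodule.mkQ_apply, Submodule.Quotient.mk_eq_zero]
      exact ev b h1 h2
    · rw [← map_sum, sm, hz]
  intro j hj
  have h1 := span0 hD j hj
  have h2 : {x | ∃ i, mu h ≤ i ∧ i < h + 1 ∧ x = π (Z (2 * i))} =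
      π '' {x | ∃ i, mu h ≤ i ∧ i < h + 1 ∧ x = Z (2 * i)} := by
    ext y
    constructor
    · rintro ⟨i, h3, h4, rfl⟩
      exact ⟨_, ⟨i, h3, h4, rfl⟩, rfl⟩
    · rintro ⟨_, ⟨i, h3, h4, rfl⟩, rfl⟩
      exact ⟨i, h3, h4, rfl⟩
  rw [h2, Submodule.span_image, ← Submodule.mem_comap, Submodule.comap_map_eq, hπ,
    Submodule.ker_mkQ, sup_comm, ← Submodule.span_union] at h1
  exact h1

end Pool.Agent.H21.GKZ
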